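import Pool.Agent.L0h93.TT.Trv

/-!
# The Rankin trick in the window
-/

set_option autoImplicit false

namespace Pool.Agent.L0h41.TT

open Finset Pool.Agent.W262.RK Pool.Agent.L0h5.TF Pool.Agent.L0h5.TT Pool.Agent.L0h94.FT
open Pool.Agent.L0h5.NT Pool.Agent.W405.RK2 Pool.Agent.L0h93.TT

/-- the distance to the window -/
noncomputable def dst (a b : ℝ) (n : Fin 3 → ℕ) : ℝ := ∑ c, max 0 (max (a - n c) (n c - b))

lemma dst_nonneg (a b : ℝ) (n : Fin 3 → ℕ) : 0 ≤ dst a b n := sum_nonneg fun _ _ => le_max_left _ _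

lemma dst_lip (a b : ℝ) (n m : Fin 3 → ℕ) : dst a b n ≤ dst a b (fun c => n c + m c) + ∑ c, (m c : ℝ) := by
  unfold dst
  rw [← sum_add_distrib]
  apply sum_le_sum
  intro c _
  have hm : (0 : ℝ) ≤ m c := Nat.cast_nonneg _
  have h0 : (0 : ℝ) ≤ max 0 (max (a - ((n c + m c : ℕ) : ℝ)) (((n c + m c : ℕ) : ℝ) - b)) := le_max_left _ _
  have h1 : a - ((n c + m c : ℕ) : ℝ) ≤ max 0 (max (a - ((n c + m c : ℕ) : ℝ)) (((n c + m c : ℕ) : ℝ) - b)) :=
    (le_max_left _ _).trans (le_max_right _ _)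
  have h2 : ((n c + m c : ℕ) : ℝ) - b ≤ max 0 (max (a - ((n c + m c : ℕ) : ℝ)) (((n c + m c : ℕ) : ℝ) - b)) :=
    (le_max_right _ _).trans (le_max_right _ _)
  push_cast at h0 h1 h2 ⊢
  apply max_le (by linarith)
  apply max_le <;> linarith

lemma dst_zero (a b : ℝ) (n : Fin 3 → ℕ) (h : ∀ c, a ≤ n c ∧ (n c : ℝ) ≤ b) : dst a b n = 0 := by
  unfold dst
  apply sum_eq_zero
  intro c _
  apply max_eq_left
  apply max_le <;> linarith [(h c).1, (h c).2]

lemma dst_low (a b t : ℝ) (n : Fin 3 → ℕ) (c : Fin 3) (h : t ≤ a - n c ∨ t ≤ n c - b) : t ≤ dst a b n := by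
  unfold dst
  refine le_trans ?_ (single_le_sum (f := fun c => max 0 (max (a - (n c : ℝ)) (n c - b)))
    (fun i _ => le_max_left _ _) (mem_univ c))
  rcases h with h | h
  · exact h.trans ((le_max_left _ _).trans (le_max_right _ _))
  · exact h.trans ((le_max_right _ _).trans (le_max_right _ _))

lemma om3_mul {z y : ℕ} {s e : Fin 3 → ℕ} (h : (fun j => s j * e j) ∈ Tup (Fin 3) z y) :
    om3 (fun j => s j * e j) = fun c => om3 s c + om3 e c := by
  funext c
  unfold om3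
  have h1 := (Pool.Agent.W405.RK2.mem_Tup.1 h).1 c
  have hsq : Squarefree (s c * e c) := (Pool.Agent.W405.RK2.PP_squarefree z y).squarefree_of_dvd h1
  have hc : (s c).Coprime (e c) := Nat.coprime_of_squarefree_mul hsq
  show (s c * e c).primeFactors.card = _
  rw [hc.primeFactors_mul, card_union_of_disjoint hc.disjoint_primeFactors]

set_option maxHeartbeats 4000000 in
open Classical in
/-- **G** -/
theorem rnk (hGro : S_GRO) (hTrv : S_TRV) (hAvg : S_AVG) : S_RNK := by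
  intro k hk
  obtain ⟨δ0, hδ0, hδ0', z0, hz0, hA⟩ := hAvg k hk
  obtain ⟨M, hM⟩ := hTrv k
  obtain ⟨δ1, hδ1⟩ : ∃ δ1 : ℝ, δ1 = δ0 / 3 := ⟨_, rfl⟩
  have hδ10 : 0 < δ1 := by rw [hδ1]; positivity
  have hδ16 : δ1 ≤ 1 / 6 := by rw [hδ1]; linarith
  refine ⟨δ1, hδ10, by linarith, z0, hz0, ?_⟩
  intro z hz lam hlam
  have hz8 : 8 ≤ z := hz0.trans hz
  obtain ⟨C1, hC1, hA1⟩ := hA z hz
  obtain ⟨C2, hC2, hT2⟩ := hM 0 le_rfl z hz8
  obtain ⟨b0, hb0⟩ : ∃ b0 : ℝ, b0 = 2 * M / δ1 := ⟨_, rfl⟩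
  have hb00 : 0 ≤ b0 := by rw [hb0]; positivity
  obtain ⟨b, hb⟩ : ∃ b : ℝ, b = (4 : ℝ) ^ k * Real.exp b0 := ⟨_, rfl⟩
  have hbn : 0 ≤ b := by rw [hb]; positivity
  obtain ⟨E, hE0, hE⟩ := bracket_g (Fin 3) z 3 b lam hbn (by omega) hlam
  refine ⟨E * (C1 + C2), by positivity, ?_⟩
  intro X y hzy hyX hXy
  have hyr : (8 : ℝ) < y := by exact_mod_cast (by omega : 8 < y)
  have hl1 : 1 < Real.log y := by
    rw [Real.lt_log_iff_exp_lt (by linarith)]
    have := Real.exp_one_lt_d9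
    linarith
  have hX0 : (0 : ℝ) < X := by
    have : (y : ℝ) ≤ X := by exact_mod_cast hyX
    linarith
  have hlyX : Real.log y ≤ Real.log X := Real.log_le_log (by linarith) (by exact_mod_cast hyX)
  have hlX1 : 1 < Real.log X := by linarith
  obtain ⟨Λ, hΛ⟩ : ∃ Λ, Λ = LL X := ⟨_, rfl⟩
  obtain ⟨l, hl⟩ : ∃ l, l = LL y := ⟨_, rfl⟩
  have hΛ0 : 0 < Λ := by rw [hΛ]; exact Real.log_pos hlX1
  have hl0 : 0 < l := by rw [hl]; exact Real.log_pos hl1
  have hlΛ : l ≤ Λ := by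
    rw [hl, hΛ]
    exact Real.log_le_log (by linarith) hlyX
  have hΛl : (1 - δ1) * Λ ≤ l := by
    have h1 := Real.log_le_log (Real.rpow_pos_of_pos (by linarith) _) hXy
    rw [Real.log_rpow (by linarith)] at h1
    rw [hΛ, hl]
    exact h1
  have hδ : 0 ≤ lam / Real.log y := div_nonneg hlam (by linarith)
  -- the weight
  obtain ⟨w, hw⟩ : ∃ w : (Fin 3 → ℕ) → ℝ,
      w = fun s => Real.exp (-(b0 * dst ((1 - δ1) * Λ) ((1 + δ1) * Λ) (om3 s))) := ⟨_, rfl⟩
  have hw0 : ∀ s, 0 ≤ w s := fun s => by rw [hw]; exact (Real.exp_pos _).le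
  have hw1 : ∀ s, w s ≤ 1 := by
    intro s
    rw [hw]
    apply Real.exp_le_one_iff.2
    have := mul_nonneg hb00 (dst_nonneg ((1 - δ1) * Λ) ((1 + δ1) * Λ) (om3 s))
    linarith
  have hwW : ∀ s, Win δ1 Λ (om3 s) → w s = 1 := by
    intro s hs
    rw [hw]
    show Real.exp _ = 1
    rw [dst_zero _ _ _ hs, mul_zero, neg_zero, Real.exp_zero]
  have hwN : ∀ s, ¬ Win δ0 l (om3 s) → w s * (Real.log y) ^ M ≤ 1 := by
    intro s hs
    have hd : δ1 / 2 * Λ ≤ dst ((1 - δ1) * Λ) ((1 + δ1) * Λ) (om3 s) := by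
      unfold Win at hs
      push Not at hs
      obtain ⟨c, hc⟩ := hs
      apply dst_low _ _ _ _ c
      by_cases h1 : (1 - δ0) * l ≤ om3 s c
      · right
        have h2 := hc h1
        have e0 : δ0 = 3 * δ1 := by rw [hδ1]; ring
        rw [e0] at h2
        have h3 : (1 + 3 * δ1) * ((1 - δ1) * Λ) ≤ (1 + 3 * δ1) * l :=
          mul_le_mul_of_nonneg_left hΛl (by positivity)
        have h4 : 0 ≤ δ1 * Λ * (1 / 2 - 3 * δ1) := mul_nonneg (by positivity) (by linarith)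
        nlinarith
      · left
        push Not at h1
        have e0 : δ0 = 3 * δ1 := by rw [hδ1]; ring
        rw [e0] at h1
        have h3 : (1 - 3 * δ1) * l ≤ (1 - 3 * δ1) * Λ := mul_le_mul_of_nonneg_left hlΛ (by linarith)
        have h4 : 0 < δ1 * Λ := by positivity
        nlinarith
    have h5 : (Real.log y) ^ M ≤ Real.exp (M * Λ) := by
      have h6 : Real.exp (M * Λ) = (Real.log X) ^ M := by
        rw [← Real.rpow_natCast, Real.rpow_def_of_pos (by linarith), hΛ]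
        congr 1
        unfold Pool.Agent.L0h5.TT.LL
        ring
      rw [h6]
      exact pow_le_pow_left₀ (by linarith) hlyX M
    have h7 : w s ≤ Real.exp (-(M * Λ)) := by
      rw [hw]
      apply Real.exp_le_exp.2
      have h8 : (M : ℝ) * Λ = b0 * (δ1 / 2 * Λ) := by
        rw [hb0]
        field_simp
      rw [h8]
      exact neg_le_neg (mul_le_mul_of_nonneg_left hd hb00)
    calc w s * (Real.log y) ^ M ≤ Real.exp (-(M * Λ)) * Real.exp (M * Λ) :=
          mul_le_mul h7 h5 (by positivity) (Real.exp_pos _).le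
      _ = 1 := by rw [← Real.exp_add, neg_add_cancel, Real.exp_zero]
  -- the function H
  have hHn : ∀ s, 0 ≤ G3 k s * w s := fun s => mul_nonneg (G3_nonneg k s) (hw0 s)
  have hHg : ∀ s e : Fin 3 → ℕ, (fun j => s j * e j) ∈ Tup (Fin 3) z y →
      (fun s => G3 k s * w s) (fun j => s j * e j) ≤
        b ^ (∑ j, (e j).primeFactors.card) * (fun s => G3 k s * w s) s := by
    intro s e h
    show G3 k (fun j => s j * e j) * w (fun j => s j * e j) ≤
      b ^ (∑ j, (e j).primeFactors.card) * (G3 k s * w s)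
    have h1 := (hGro k s e (sq_Tup h)).2
    have h2 : w (fun j => s j * e j) ≤ Real.exp b0 ^ (∑ j, (e j).primeFactors.card) * w s := by
      rw [hw]
      show Real.exp (-(b0 * dst ((1 - δ1) * Λ) ((1 + δ1) * Λ) (om3 (fun j => s j * e j)))) ≤
        Real.exp b0 ^ (∑ j, (e j).primeFactors.card) *
          Real.exp (-(b0 * dst ((1 - δ1) * Λ) ((1 + δ1) * Λ) (om3 s)))
      rw [← Real.exp_nat_mul, ← Real.exp_add]
      apply Real.exp_le_exp.2
      have h3 := dst_lip ((1 - δ1) * Λ) ((1 + δ1) * Λ) (om3 s) (om3 e)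
      rw [← om3_mul h] at h3
      have h4 : ((∑ j, (e j).primeFactors.card : ℕ) : ℝ) = ∑ c, (om3 e c : ℝ) := by
        unfold om3
        push_cast
        rfl
      rw [h4]
      have h5 := mul_le_mul_of_nonneg_left h3 hb00
      nlinarith
    calc G3 k (fun j => s j * e j) * w (fun j => s j * e j) ≤
        (((4 : ℝ) ^ k) ^ (∑ j, (e j).primeFactors.card) * G3 k s) *
          (Real.exp b0 ^ (∑ j, (e j).primeFactors.card) * w s) :=
          mul_le_mul h1 h2 (hw0 _) (mul_nonneg (by positivity) (G3_nonneg k s))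
      _ = _ := by
          rw [hb, mul_pow]
          ring
  have hmain := main_ineq_g (Fin 3) z y (fun s => G3 k s * w s) (lam / Real.log y) b hbn 3 (by omega) hδ
    hHn hHg
  have hgw : ∀ s ∈ Tup (Fin 3) z y, 0 ≤ ∏ j, gw 1 3 (s j) := fun s hs =>
    prod_nonneg fun j _ => gw1_nonneg (by omega) ((Pool.Agent.W405.RK2.mem_Tup.1 hs).1 j)
  -- the window
  have hL : ∑ s ∈ (Tup (Fin 3) z y).filter (fun s => Win δ1 (LL X) (om3 s)),
      G3 k s * (∏ j, gw 1 3 (s j)) * (∏ j, (s j : ℝ)) ^ (lam / Real.log y) ≤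
      ∑ s ∈ Tup (Fin 3) z y, G3 k s * w s * (∏ j, gw 1 3 (s j)) * (∏ j, (s j : ℝ)) ^ (lam / Real.log y) := by
    have h1 : ∑ s ∈ (Tup (Fin 3) z y).filter (fun s => Win δ1 (LL X) (om3 s)),
      G3 k s * (∏ j, gw 1 3 (s j)) * (∏ j, (s j : ℝ)) ^ (lam / Real.log y) =
      ∑ s ∈ (Tup (Fin 3) z y).filter (fun s => Win δ1 (LL X) (om3 s)),
      G3 k s * w s * (∏ j, gw 1 3 (s j)) * (∏ j, (s j : ℝ)) ^ (lam / Real.log y) := by
      apply sum_congr rfl
      intro s hs
      rw [mem_filter, ← hΛ] at hs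
      rw [hwW s hs.2, mul_one]
    rw [h1]
    apply sum_le_sum_of_subset_of_nonneg (filter_subset _ _)
    intro s hs _
    exact mul_nonneg (mul_nonneg (hHn s) (hgw s hs)) (Real.rpow_nonneg (prod_nonneg fun _ _ => Nat.cast_nonneg _) _)
  refine hL.trans (hmain.trans ?_)
  have hS : ∑ s ∈ Tup (Fin 3) z y, G3 k s * w s * ∏ j, gw 1 3 (s j) ≤ (C1 + C2) * (Real.log y) ^ 3 := by
    rw [← sum_filter_add_sum_filter_not (Tup (Fin 3) z y) (fun s => Win δ0 (LL y) (om3 s))]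
    have h1 : ∑ s ∈ (Tup (Fin 3) z y).filter (fun s => Win δ0 (LL y) (om3 s)),
        G3 k s * w s * ∏ j, gw 1 3 (s j) ≤ C1 * (Real.log y) ^ 3 := by
      refine le_trans ?_ (hA1 y hzy)
      apply sum_le_sum
      intro s hs
      apply mul_le_mul_of_nonneg_right _ (hgw s (mem_filter.1 hs).1)
      exact mul_le_of_le_one_right (G3_nonneg k s) (hw1 s)
    have h2 : ∑ s ∈ (Tup (Fin 3) z y).filter (fun s => ¬ Win δ0 (LL y) (om3 s)),
        G3 k s * w s * ∏ j, gw 1 3 (s j) ≤ C2 := by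
      have hlM : 0 < (Real.log y) ^ M := by positivity
      have h3 : (∑ s ∈ (Tup (Fin 3) z y).filter (fun s => ¬ Win δ0 (LL y) (om3 s)),
        G3 k s * w s * ∏ j, gw 1 3 (s j)) * (Real.log y) ^ M ≤ C2 * (Real.log y) ^ M := by
        have h4 := hT2 y hzy
        simp only [zero_div, Real.rpow_zero, mul_one] at h4
        refine le_trans ?_ h4
        rw [sum_mul]
        have h5 : ∑ s ∈ (Tup (Fin 3) z y).filter (fun s => ¬ Win δ0 (LL y) (om3 s)),
            G3 k s * w s * (∏ j, gw 1 3 (s j)) * (Real.log y) ^ M ≤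
            ∑ s ∈ (Tup (Fin 3) z y).filter (fun s => ¬ Win δ0 (LL y) (om3 s)),
            G3 k s * (∏ j, gw 1 3 (s j)) := by
          apply sum_le_sum
          intro s hs
          rw [mem_filter, ← hl] at hs
          have h6 := hwN s hs.2
          have h7 : 0 ≤ G3 k s * (∏ j, gw 1 3 (s j)) := mul_nonneg (G3_nonneg k s) (hgw s hs.1)
          calc G3 k s * w s * (∏ j, gw 1 3 (s j)) * (Real.log y) ^ M =
              (G3 k s * (∏ j, gw 1 3 (s j))) * (w s * (Real.log y) ^ M) := by ring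
            _ ≤ (G3 k s * (∏ j, gw 1 3 (s j))) * 1 := mul_le_mul_of_nonneg_left h6 h7
            _ = _ := mul_one _
        refine h5.trans ?_
        apply sum_le_sum_of_subset_of_nonneg (filter_subset _ _)
        intro s hs _
        exact mul_nonneg (G3_nonneg k s) (hgw s hs)
      exact le_of_mul_le_mul_right h3 hlM
    have h3 : C2 ≤ C2 * (Real.log y) ^ 3 := le_mul_of_one_le_right hC2 (one_le_pow₀ hl1.le)
    rw [add_mul]
    linarith
  have hn : 0 ≤ ∑ s ∈ Tup (Fin 3) z y, G3 k s * w s * ∏ j, gw 1 3 (s j) :=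
    sum_nonneg fun s hs => mul_nonneg (hHn s) (hgw s hs)
  calc _ ≤ E * ∑ s ∈ Tup (Fin 3) z y, G3 k s * w s * ∏ j, gw 1 3 (s j) :=
        mul_le_mul_of_nonneg_right (hE y hzy) hn
    _ ≤ E * ((C1 + C2) * (Real.log y) ^ 3) := mul_le_mul_of_nonneg_left hS hE0
    _ = _ := by ring

end Pool.Agent.L0h41.TT
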